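import Mathlib
import Pool.Agent.H.MP_375d90_nt.D

namespace Pool.Agent.H.MP_375d90_nt

open Polynomial

noncomputable def P (k n : ℕ) : (ZMod 2)[X] :=
  ∑ i ∈ Finset.range k, monomial i (if n.testBit i then 1 else 0)

lemma coeff_P (k n i : ℕ) : (P k n).coeff i = if i < k ∧ n.testBit i then 1 else 0 := by
  simp only [P, finset_sum_coeff, coeff_monomial, Finset.sum_ite_eq', Finset.mem_range]
  by_cases h : i < k <;> simp [h]

noncomputable def T (n : ℕ) : (ZMod 2)[X] := P n n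

lemma coeff_T (n i : ℕ) : (T n).coeff i = if n.testBit i then 1 else 0 := by
  rw [T, coeff_P]
  by_cases h : i < n
  · simp [h]
  · have : n.testBit i = false :=
      Nat.testBit_lt_two_pow (lt_of_lt_of_le Nat.lt_two_pow_self
        (Nat.pow_le_pow_right (by norm_num) (by omega)))
    simp [this]

lemma T_xor (a b : ℕ) : T (a ^^^ b) = T a + T b := by
  ext i
  simp only [coeff_add, coeff_T, Nat.testBit_xor]
  cases a.testBit i <;> cases b.testBit i <;> simp <;> decide

lemma T_shift (a k : ℕ) : T (a <<< k) = X ^ k * T a := by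
  ext i
  rw [coeff_X_pow_mul', coeff_T, Nat.testBit_shiftLeft]
  by_cases h : k ≤ i <;> simp [h, coeff_T]

lemma T_one : T 1 = 1 := by
  simp [T, P]

noncomputable def cl (f g n : ℕ) : ℕ :=
  Nat.rec 0 (fun k acc => cond (f.testBit k) (Nat.xor acc (Nat.shiftLeft g k)) acc) n

lemma cl_succ (f g k : ℕ) :
    cl f g (k + 1) = cond (f.testBit k) (cl f g k ^^^ (g <<< k)) (cl f g k) := rfl

lemma T_cl (f g k : ℕ) : T (cl f g k) = P k f * T g := by
  induction k with
  | zero => simp [cl, T, P]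
  | succ k ih =>
    rw [cl_succ, P, Finset.sum_range_succ, ← P]
    cases f.testBit k
    · simp [ih]
    · simp only [cond_true, if_true]
      rw [T_xor, T_shift, ih, add_mul, monomial_one_right_eq_X_pow]

noncomputable def popc (k : ℕ) : ℕ → ℕ :=
  Nat.rec (fun n => Nat.mod n 2) (fun k ih n =>
    Nat.add (ih (Nat.mod n (Nat.pow 2 (Nat.pow 2 k)))) (ih (Nat.shiftRight n (Nat.pow 2 k)))) k

lemma popc_zero (n : ℕ) : popc 0 n = n % 2 := rfl

lemma popc_succ (k n : ℕ) : popc (k + 1) n = popc k (n % 2 ^ 2 ^ k) + popc k (n >>> 2 ^ k) := rfl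

lemma popc_eq (k n : ℕ) : popc k n = Nat.count (fun i => n.testBit i = true) (2 ^ k) := by
  induction k generalizing n with
  | zero =>
    rw [popc_zero, pow_zero, Nat.count_one]
    rcases Nat.mod_two_eq_zero_or_one n with h | h <;> simp [h]
  | succ k ih =>
    rw [popc_succ, pow_succ, mul_two, Nat.count_add, ih, ih]
    congr 1
    · simp only [Nat.count_eq_card_filter_range]
      congr 1
      apply Finset.filter_congr
      intro i hi
      simp [Finset.mem_range.mp hi]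
    · simp only [Nat.testBit_shiftRight]

lemma card_T (k n : ℕ) (h : n < 2 ^ 2 ^ k) : (T n).support.card = popc k n := by
  rw [popc_eq, Nat.count_eq_card_filter_range]
  congr 1
  ext i
  simp only [mem_support_iff, coeff_T, Finset.mem_filter, Finset.mem_range]
  constructor
  · intro h1
    have h2 : n.testBit i = true := by by_contra h2; simp [h2] at h1
    refine ⟨?_, h2⟩
    by_contra h3
    rw [Nat.testBit_lt_two_pow (lt_of_lt_of_le h (Nat.pow_le_pow_right (by norm_num) (by omega)))]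
      at h2
    exact absurd h2 (by simp)
  · intro h1; simp [h1.2]

lemma c1 : cl F G 728 = 1 ^^^ (1 <<< 131064) := by decide +kernel
lemma c2 : popc 17 G = 98298 := by decide +kernel
lemma c3 : G < 2 ^ 2 ^ 17 := by decide +kernel
lemma c4 : F.testBit 0 = true ∧ F.testBit 727 = true := by decide +kernel

noncomputable def f : (ZMod 2)[X] := P 728 F

lemma T_pow (N : ℕ) : T (1 ^^^ (1 <<< N)) = 1 + X ^ N := by
  rw [T_xor, T_shift, T_one, mul_one]

lemma fg : f * T G = 1 + X ^ 131064 :=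
  (T_cl F G 728).symm.trans ((congrArg T c1).trans (T_pow _))

lemma f_deg : 1 ≤ f.natDegree :=
  le_trans (by norm_num) (le_natDegree_of_ne_zero (n := 727) (by simp [f, coeff_P, c4.2]))

lemma f_ne : f ≠ 0 := by
  intro h; have := f_deg; simp [h] at this

lemma f_zero : f.eval 0 = 1 := by
  rw [← coeff_zero_eq_eval_zero]; simp [f, coeff_P, c4.1]

lemma per' (f : (ZMod 2)[X]) (G N : ℕ) (fg : f * T G = 1 + X ^ N) (f_deg : 1 ≤ f.natDegree)
    (d i : ℕ) (hd : 0 < d) (hi : i + d < N) (h : f ∣ 1 + X ^ d) :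
    G.testBit i = G.testBit (i + d) := by
  have f_ne : f ≠ 0 := by
    intro h; simp [h] at f_deg
  obtain ⟨q, hq⟩ := h
  have hdeg : q.natDegree < d := by
    have h0 : q ≠ 0 := by
      rintro rfl
      have := congrArg (eval 0) hq
      simp [hd.ne'] at this
    have h1 : (1 + X ^ d : (ZMod 2)[X]).natDegree ≤ d := by compute_degree
    rw [hq, natDegree_mul f_ne h0] at h1
    omega
  have e : (1 + X ^ d) * T G = (1 + X ^ N) * q := by
    rw [← fg, hq]; ring
  have := congrArg (fun p => coeff p (i + d)) e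
  simp only [add_mul, one_mul, coeff_add, coeff_X_pow_mul', coeff_T] at this
  rw [if_pos (by omega : d ≤ i + d), if_neg (by omega : ¬ N ≤ i + d), Nat.add_sub_cancel,
    coeff_eq_zero_of_natDegree_lt (by omega : q.natDegree < i + d)] at this
  revert this
  cases G.testBit i <;> cases G.testBit (i + d) <;> simp

lemma per (d i : ℕ) (hd : 0 < d) (hi : i + d < 131064) (h : f ∣ 1 + X ^ d) :
    G.testBit i = G.testBit (i + d) := per' f G _ fg f_deg d i hd hi h

lemma c5 : G.testBit 2 ≠ G.testBit (2 + 65532) ∧ G.testBit 3 ≠ G.testBit (3 + 43688) ∧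
    G.testBit 1 ≠ G.testBit (1 + 3048) ∧ G.testBit 2 ≠ G.testBit (2 + 1032) := by
  decide +kernel

lemma root_pow (f : (ZMod 2)[X]) (k : ℕ) : AdjoinRoot.root f ^ k = 1 ↔ f ∣ 1 + X ^ k := by
  rw [← AdjoinRoot.mk_X, ← map_pow, ← map_one (AdjoinRoot.mk f), AdjoinRoot.mk_eq_mk,
    CharTwo.sub_eq_add, add_comm]

lemma ord_gen (f : (ZMod 2)[X]) (N : ℕ) (hN : 0 < N) (h : f ∣ 1 + X ^ N)
    (hp : ∀ p : ℕ, p.Prime → p ∣ N → ¬ f ∣ 1 + X ^ (N / p)) :
    sInf {D : ℕ | 1 ≤ D ∧ f ∣ 1 + X ^ D} = N := by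
  have ho : orderOf (AdjoinRoot.root f) = N :=
    orderOf_eq_of_pow_and_pow_div_prime hN ((root_pow _ _).mpr h)
      fun p h1 h2 h3 => hp p h1 h2 ((root_pow _ _).mp h3)
  refine le_antisymm (Nat.sInf_le ⟨hN, h⟩) ?_
  have := Nat.sInf_mem (s := {D : ℕ | 1 ≤ D ∧ f ∣ 1 + X ^ D}) ⟨N, hN, h⟩
  rw [← ho]
  exact orderOf_le_of_pow_eq_one this.1 ((root_pow _ _).mpr this.2)

lemma primes (p : ℕ) (hp : p.Prime) (hd : p ∣ 131064) :
    131064 / p = 65532 ∨ 131064 / p = 43688 ∨ 131064 / p = 3048 ∨ 131064 / p = 1032 := by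
  rw [show 131064 = 2 ^ 3 * 3 * 43 * 127 by norm_num, hp.dvd_mul, hp.dvd_mul, hp.dvd_mul] at hd
  rcases hd with ((h | h) | h) | h
  · obtain rfl := (Nat.prime_dvd_prime_iff_eq hp Nat.prime_two).mp (hp.dvd_of_dvd_pow h)
    norm_num
  · obtain rfl := (Nat.prime_dvd_prime_iff_eq hp (by norm_num)).mp h
    norm_num
  · obtain rfl := (Nat.prime_dvd_prime_iff_eq hp (by norm_num)).mp h
    norm_num
  · obtain rfl := (Nat.prime_dvd_prime_iff_eq hp (by norm_num)).mp h
    norm_num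

lemma nd (k : ℕ) (hk : k = 65532 ∨ k = 43688 ∨ k = 3048 ∨ k = 1032) :
    ∃ i, 0 < k ∧ i + k < 131064 ∧ G.testBit i ≠ G.testBit (i + k) := by
  rcases hk with rfl | rfl | rfl | rfl
  · exact ⟨2, by norm_num, by norm_num, c5.1⟩
  · exact ⟨3, by norm_num, by norm_num, c5.2.1⟩
  · exact ⟨1, by norm_num, by norm_num, c5.2.2.1⟩
  · exact ⟨2, by norm_num, by norm_num, c5.2.2.2⟩

lemma dvd_gen (f g : (ZMod 2)[X]) (N : ℕ) (h : f * g = 1 + X ^ N) : f ∣ 1 + X ^ N :=
  Dvd.intro _ h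

lemma ord_f : sInf {D : ℕ | 1 ≤ D ∧ f ∣ 1 + X ^ D} = 131064 :=
  ord_gen f _ (by norm_num) (dvd_gen f (T G) 131064 fg) fun p hp hd h =>
    let ⟨i, h1, h2, h3⟩ := nd _ (primes p hp hd)
    h3 (per _ i h1 h2 h)

lemma wt_gen (f g h : (ZMod 2)[X]) (hf : f ≠ 0) (e : f * g = h) : h / f = g := by
  rw [← e, mul_div_cancel_left₀ _ hf]

lemma wt : ((1 + X ^ 131064) / f).support.card = 98298 :=
  (congrArg (fun p : (ZMod 2)[X] => p.support.card) (wt_gen _ _ _ f_ne fg)).trans
    ((card_T 17 _ c3).trans c2)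

end Pool.Agent.H.MP_375d90_nt
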